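import Mathlib

set_option autoImplicit false

/-!
# The pair lemma of Kannan and Lovasz type for lattice-free tetrahedra

`S` is a tetrahedron with vertices `v k` and barycentric forms `L_j(x) = a j . x + c j`
(`L_j (v k) = 1` if `j = k` and `0` otherwise). If no lattice point lies in the interior of `S`,
then for every pair `u, u'` of integer vectors which extends to a basis `u, u', w` of the lattice
and every real `t`,
`(1 - |D u|_1 / 2 - |D (u' + t u)|_1 / 2) * |n . (v j - v k)| <= 1`, `n = u x u'`,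
where `(D x)_j = a j . x`.
-/

namespace Pool.Agent.Helper92.TET

open Finset

/-- An integer vector as a real vector. -/
def toR (z : Fin 3 → ℤ) : Fin 3 → ℝ := fun i => (z i : ℝ)

/-- The dot product. -/
def dt (x y : Fin 3 → ℝ) : ℝ := ∑ i, x i * y i

/-- The cross product. -/
def crs (x y : Fin 3 → ℝ) : Fin 3 → ℝ :=
  ![x 1 * y 2 - x 2 * y 1, x 2 * y 0 - x 0 * y 2, x 0 * y 1 - x 1 * y 0]

lemma dt_eq (x y : Fin 3 → ℝ) : dt x y = x 0 * y 0 + x 1 * y 1 + x 2 * y 2 := by
  simp [dt, Fin.sum_univ_three]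

lemma dt_add_right (x y z : Fin 3 → ℝ) : dt x (y + z) = dt x y + dt x z := by
  simp only [dt_eq, Pi.add_apply]; ring

lemma dt_smul_right (x : Fin 3 → ℝ) (c : ℝ) (y : Fin 3 → ℝ) : dt x (c • y) = c * dt x y := by
  simp only [dt_eq, Pi.smul_apply, smul_eq_mul]; ring

lemma dt_sum_right {ι : Type*} (s : Finset ι) (x : Fin 3 → ℝ) (y : ι → Fin 3 → ℝ) :
    dt x (∑ k ∈ s, y k) = ∑ k ∈ s, dt x (y k) := by
  classical
  induction s using Finset.induction_on with
  | empty => simp [dt]
  | insert k s hk ih => rw [sum_insert hk, sum_insert hk, dt_add_right, ih]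

/-- Cramer's identity. -/
lemma cramer (u u' w y : Fin 3 → ℝ) (h : dt (crs u u') w = 1) :
    y = dt (crs y u') w • u + dt (crs u y) w • u' + dt (crs u u') y • w := by
  have h1 : u 1 * u' 2 * w 0 - u 2 * u' 1 * w 0 + (u 2 * u' 0 * w 1 - u 0 * u' 2 * w 1)
      + (u 0 * u' 1 * w 2 - u 1 * u' 0 * w 2) = 1 := by
    rw [← h]; simp only [dt_eq, crs, Matrix.cons_val_zero, Matrix.cons_val_one, Matrix.cons_val]
    ring
  funext i
  fin_cases i <;>
  · simp only [dt_eq, crs, Matrix.cons_val_zero, Matrix.cons_val_one, Matrix.cons_val,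
      Pi.add_apply, Pi.smul_apply, smul_eq_mul, Fin.zero_eta, Fin.mk_one, Fin.reduceFinMk]
    first
    | linear_combination (-(y 0)) * h1
    | linear_combination (-(y 1)) * h1
    | linear_combination (-(y 2)) * h1

lemma dt_crs_left (u u' : Fin 3 → ℝ) : dt (crs u u') u = 0 := by
  simp only [dt_eq, crs, Matrix.cons_val_zero, Matrix.cons_val_one, Matrix.cons_val]; ring

lemma dt_crs_right (u u' : Fin 3 → ℝ) : dt (crs u u') u' = 0 := by
  simp only [dt_eq, crs, Matrix.cons_val_zero, Matrix.cons_val_one, Matrix.cons_val]; ring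

/-- Strictly positive weights with prescribed mean strictly between two of the values. -/
lemma weights (f : Fin 4 → ℝ) (j k : Fin 4) (m : ℝ) (h1 : f k < m) (h2 : m < f j) :
    ∃ l : Fin 4 → ℝ, (∀ i, 0 < l i) ∧ ∑ i, l i = 1 ∧ ∑ i, l i * f i = m := by
  set g : ℝ := (1 / 4 : ℝ) * ∑ i, f i with hg
  obtain ⟨e, he0, he1, hA, hB⟩ : ∃ e : ℝ, 0 < e ∧ e < 1 ∧ (1 - e) * f k + e * g < m ∧
      m < (1 - e) * f j + e * g := by
    have c1 : Filter.Tendsto (fun e : ℝ => (1 - e) * f k + e * g) (nhdsWithin 0 (Set.Ioi 0))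
        (nhds (f k)) := by
      have : Filter.Tendsto (fun e : ℝ => (1 - e) * f k + e * g) (nhds 0)
          (nhds ((1 - 0) * f k + 0 * g)) := Continuous.tendsto (by fun_prop) 0
      simpa using this.mono_left nhdsWithin_le_nhds
    have c2 : Filter.Tendsto (fun e : ℝ => (1 - e) * f j + e * g) (nhdsWithin 0 (Set.Ioi 0))
        (nhds (f j)) := by
      have : Filter.Tendsto (fun e : ℝ => (1 - e) * f j + e * g) (nhds 0)
          (nhds ((1 - 0) * f j + 0 * g)) := Continuous.tendsto (by fun_prop) 0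
      simpa using this.mono_left nhdsWithin_le_nhds
    have e1 := c1.eventually (gt_mem_nhds h1)
    have e2 := c2.eventually (lt_mem_nhds h2)
    have e3 : ∀ᶠ e : ℝ in nhdsWithin 0 (Set.Ioi 0), e ∈ Set.Ioo (0 : ℝ) 1 :=
      Ioo_mem_nhdsGT one_pos
    obtain ⟨e, h, h', h''⟩ := (e3.and (e1.and e2)).exists
    exact ⟨e, h.1, h.2, h', h''⟩
  set A := (1 - e) * f k + e * g with hAd
  set B := (1 - e) * f j + e * g with hBd
  have hAB : 0 < B - A := by linarith
  set s := (m - A) / (B - A) with hsd
  have hs0 : 0 < s := div_pos (by linarith) hAB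
  have hs1 : s < 1 := by rw [hsd, div_lt_one hAB]; linarith
  have hsm : (1 - s) * A + s * B = m := by
    have : s * (B - A) = m - A := by rw [hsd]; field_simp
    linarith
  refine ⟨fun i => e / 4 + (1 - e) * ((1 - s) * (if i = k then 1 else 0) +
    s * (if i = j then 1 else 0)), ?_, ?_, ?_⟩
  · intro i
    have : 0 ≤ (1 - e) * ((1 - s) * (if i = k then (1 : ℝ) else 0) +
        s * (if i = j then 1 else 0)) := by
      apply mul_nonneg (by linarith)
      apply add_nonneg
      · apply mul_nonneg (by linarith); split_ifs <;> norm_num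
      · apply mul_nonneg (by linarith); split_ifs <;> norm_num
    linarith
  · rw [sum_add_distrib, ← mul_sum, sum_add_distrib, ← mul_sum, ← mul_sum]
    simp only [sum_ite_eq', mem_univ, if_true, sum_const, card_univ, Fintype.card_fin]
    norm_num
    ring
  · have e1 : ∀ i, (e / 4 + (1 - e) * ((1 - s) * (if i = k then (1 : ℝ) else 0) +
        s * (if i = j then 1 else 0))) * f i
        = e * (1 / 4 * f i) + ((1 - e) * (1 - s)) * (if i = k then f i else 0)
          + ((1 - e) * s) * (if i = j then f i else 0) := by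
      intro i
      split_ifs <;> ring
    simp_rw [e1]
    rw [sum_add_distrib, sum_add_distrib, ← mul_sum, ← mul_sum, ← mul_sum, ← mul_sum, ← hg]
    simp only [sum_ite_eq', mem_univ, if_true]
    rw [← hsm, hAd, hBd]
    ring

/-- The negative part. -/
lemma neg_part (x : ℝ) : max (-x) 0 = (|x| - x) / 2 := by
  rcases le_total 0 x with h | h
  · rw [max_eq_right (by linarith), abs_of_nonneg h]; ring
  · rw [max_eq_left (by linarith), abs_of_nonpos h]; ring

/-- The sum of the linear parts of the barycentric forms is zero. -/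
lemma sum_zero (a : Fin 4 → Fin 3 → ℝ) (c : Fin 4 → ℝ) (v : Fin 4 → Fin 3 → ℝ)
    (hv : ∀ j k, dt (a j) (v k) + c j = if j = k then 1 else 0) : ∀ i, ∑ j, a j i = 0 := by
  -- the 3 x 3 matrices of the forms 1, 2, 3 and of the edge vectors are inverse to each other
  let A : Matrix (Fin 3) (Fin 3) ℝ := fun p i => a p.succ i
  let V : Matrix (Fin 3) (Fin 3) ℝ := fun i q => v q.succ i - v 0 i
  have hAV : A * V = 1 := by
    ext p q
    have h1 := hv p.succ q.succ
    have h2 := hv p.succ 0
    rw [if_neg (Fin.succ_ne_zero p)] at h2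
    simp only [Fin.succ_inj] at h1
    have : (A * V) p q = dt (a p.succ) (v q.succ) - dt (a p.succ) (v 0) := by
      simp only [Matrix.mul_apply, A, V, dt, ← sum_sub_distrib]
      exact sum_congr rfl fun i _ => by ring
    rw [this, Matrix.one_apply]
    linarith
  have hVA : V * A = 1 := mul_eq_one_comm.mp hAV
  -- the row vector of the sums
  let r : Fin 3 → ℝ := fun i => ∑ j, a j i
  have hrV : Matrix.vecMul r V = 0 := by
    funext q
    have e1 : Matrix.vecMul r V q = ∑ j, (dt (a j) (v q.succ) - dt (a j) (v 0)) := by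
      simp only [Matrix.vecMul, dotProduct, r, V, dt, ← sum_sub_distrib, sum_mul]
      rw [sum_comm]
      exact sum_congr rfl fun j _ => sum_congr rfl fun i _ => by ring
    have e2 : ∀ j, dt (a j) (v q.succ) - dt (a j) (v 0)
        = (if j = q.succ then (1 : ℝ) else 0) - (if j = 0 then (1 : ℝ) else 0) := by
      intro j
      have h1 := hv j q.succ
      have h2 := hv j 0
      linarith
    rw [e1]
    simp_rw [e2]
    rw [sum_sub_distrib]
    simp
  have hr : r = 0 := by
    have : Matrix.vecMul (Matrix.vecMul r V) A = r := by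
      rw [Matrix.vecMul_vecMul, hVA, Matrix.vecMul_one]
    rw [← this, hrV, Matrix.zero_vecMul]
  intro i
  exact congrFun hr i

/-- **The pair lemma.** -/
theorem kl2 (a : Fin 4 → Fin 3 → ℝ) (c : Fin 4 → ℝ) (v : Fin 4 → Fin 3 → ℝ)
    (hv : ∀ j k, dt (a j) (v k) + c j = if j = k then 1 else 0)
    (hlat : ∀ z : Fin 3 → ℤ, ∃ j, dt (a j) (toR z) + c j ≤ 0)
    (u u' w : Fin 3 → ℤ) (hdet : dt (crs (toR u) (toR u')) (toR w) = 1) (t : ℝ) (j k : Fin 4) :
    (1 - (∑ i, |dt (a i) (toR u)|) / 2 - (∑ i, |dt (a i) (toR u' + t • toR u)|) / 2) *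
      |dt (crs (toR u) (toR u')) (v j) - dt (crs (toR u) (toR u')) (v k)| ≤ 1 := by
  set n := crs (toR u) (toR u') with hn
  set d : Fin 4 → ℝ := fun i => dt (a i) (toR u) with hd
  set d' : Fin 4 → ℝ := fun i => dt (a i) (toR u' + t • toR u) with hd'
  set r : ℝ := 1 - (∑ i, |d i|) / 2 - (∑ i, |d' i|) / 2 with hr
  by_contra hcon
  push Not at hcon
  -- without loss of generality the larger value is at j
  obtain ⟨j, k, hjk⟩ : ∃ j k : Fin 4, 1 < r * (dt n (v j) - dt n (v k)) := by
    rcases le_total 0 (dt n (v j) - dt n (v k)) with h | h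
    · exact ⟨j, k, by rwa [abs_of_nonneg h] at hcon⟩
    · exact ⟨k, j, by rw [abs_of_nonpos h] at hcon; linarith⟩
  have hz := sum_zero a c v hv
  have hdz : ∀ x : Fin 3 → ℝ, ∑ i, dt (a i) x = 0 := by
    intro x
    simp only [dt]
    rw [sum_comm]
    apply sum_eq_zero
    intro i _
    rw [← sum_mul, hz i, zero_mul]
  -- the shifts
  set s : Fin 4 → ℝ := fun i => max (-(d i)) 0 + max (-(d' i)) 0 with hs
  have hsr : ∑ i, s i = 1 - r := by
    simp only [hs, neg_part]
    rw [sum_add_distrib, ← sum_div, ← sum_div, sum_sub_distrib, sum_sub_distrib]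
    have h1 : ∑ i, d i = 0 := hdz _
    have h2 : ∑ i, d' i = 0 := hdz _
    rw [h1, h2, hr]; ring
  -- barycentric forms of a combination of the vertices
  have hcomb : ∀ (l : Fin 4 → ℝ), ∑ i, l i = 1 → ∀ q, dt (a q) (∑ i, l i • v i) + c q = l q := by
    intro l hl q
    rw [dt_sum_right]
    have : ∀ i, dt (a q) (l i • v i) = l i * (if q = i then 1 else 0) - l i * c q := by
      intro i
      rw [dt_smul_right]
      have := hv q i
      have h' : dt (a q) (v i) = (if q = i then 1 else 0) - c q := by linarith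
      rw [h']; ring
    simp_rw [this]
    rw [sum_sub_distrib, ← sum_mul, hl]
    simp
  -- the values of n on the vertices of the small homothet
  set f : Fin 4 → ℝ := fun i => (∑ q, s q * dt n (v q)) + r * dt n (v i) with hf
  have hfjk : f k + 1 < f j := by simp only [hf]; linarith
  obtain ⟨m, hm1, hm2⟩ : ∃ m : ℤ, f k < m ∧ (m : ℝ) < f j := by
    refine ⟨⌊f k⌋ + 1, ?_, ?_⟩
    · push_cast; exact Int.lt_floor_add_one _
    · push_cast; have := Int.floor_le (f k); linarith
  obtain ⟨l, hl0, hl1, hlm⟩ := weights f j k m hm1 hm2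
  -- the point x of the homothet
  have hr0 : 0 < r := by
    by_contra hr0
    push Not at hr0
    exact absurd hcon (not_lt.mpr (le_trans (mul_nonpos_of_nonpos_of_nonneg hr0 (abs_nonneg _))
      zero_le_one))
  set x : Fin 3 → ℝ := ∑ i, (s i + r * l i) • v i with hx
  have hxs : ∑ i, (s i + r * l i) = 1 := by
    rw [sum_add_distrib, ← mul_sum, hl1, hsr]; ring
  have hxL : ∀ q, dt (a q) x + c q = s q + r * l q := hcomb _ hxs
  have hxn : dt n x = m := by
    rw [hx, dt_sum_right]
    have : ∀ i, dt n ((s i + r * l i) • v i) = s i * dt n (v i) + r * (l i * dt n (v i)) := by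
      intro i; rw [dt_smul_right]; ring
    simp_rw [this]
    rw [sum_add_distrib, ← mul_sum]
    have e2 : ∑ i, l i * f i = (∑ q, s q * dt n (v q)) + r * ∑ i, l i * dt n (v i) := by
      simp only [hf]
      have : ∀ i, l i * ((∑ q, s q * dt n (v q)) + r * dt n (v i))
          = l i * (∑ q, s q * dt n (v q)) + r * (l i * dt n (v i)) := by intro i; ring
      simp_rw [this]
      rw [sum_add_distrib, ← sum_mul, hl1, ← mul_sum, one_mul]
    rw [← e2, hlm]
  -- the lattice point in the plane of x
  set z0 : Fin 3 → ℤ := m • w with hz0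
  have hz0R : toR z0 = (m : ℝ) • toR w := by
    funext i; simp [toR, hz0]
  have hy0 : dt n (toR z0 - x) = 0 := by
    have : toR z0 - x = (m : ℝ) • toR w + (-1 : ℝ) • x := by rw [hz0R]; funext i; simp; ring
    rw [this, dt_add_right, dt_smul_right, dt_smul_right, hdet, hxn]; ring
  set y := toR z0 - x with hy
  have hyc := cramer (toR u) (toR u') (toR w) y hdet
  rw [show dt (crs (toR u) (toR u')) y = 0 from hy0, zero_smul, add_zero] at hyc
  set al := dt (crs y (toR u')) (toR w) with hal
  set be := dt (crs (toR u) y) (toR w) with hbe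
  -- shift by integers
  set j0 : ℤ := -⌊be⌋ with hj0
  set be' : ℝ := be + j0 with hbe'
  have hb0 : 0 ≤ be' := by
    have := Int.floor_le be
    rw [hbe', hj0]; push_cast; linarith
  have hb1 : be' ≤ 1 := by
    have := Int.lt_floor_add_one be
    rw [hbe', hj0]; push_cast; linarith
  set i0 : ℤ := -⌊al - t * be'⌋ with hi0
  set al' : ℝ := al + i0 - t * be' with hal'
  have ha0 : 0 ≤ al' := by
    have := Int.floor_le (al - t * be')
    rw [hal', hi0]; push_cast; linarith
  have ha1 : al' ≤ 1 := by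
    have := Int.lt_floor_add_one (al - t * be')
    rw [hal', hi0]; push_cast; linarith
  -- the lattice point in the interior
  obtain ⟨q, hq⟩ := hlat (z0 + i0 • u + j0 • u')
  have hpt : toR (z0 + i0 • u + j0 • u') = x + (al' • toR u + be' • (toR u' + t • toR u)) := by
    have h1 : toR (z0 + i0 • u + j0 • u') = toR z0 + (i0 : ℝ) • toR u + (j0 : ℝ) • toR u' := by
      funext i; simp [toR]
    have h2 : toR z0 = x + y := by rw [hy]; funext i; simp
    rw [h1, h2, hyc, hal', hbe']
    funext i
    simp only [Pi.add_apply, Pi.smul_apply, smul_eq_mul]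
    ring
  rw [hpt, dt_add_right, dt_add_right, dt_smul_right, dt_smul_right] at hq
  have hLq := hxL q
  have b1 : -(max (-(d q)) 0) ≤ al' * d q := by
    have h1 : -(d q) ≤ max (-(d q)) 0 := le_max_left _ _
    have h2 : 0 ≤ max (-(d q)) 0 := le_max_right _ _
    nlinarith
  have b2 : -(max (-(d' q)) 0) ≤ be' * d' q := by
    have h1 : -(d' q) ≤ max (-(d' q)) 0 := le_max_left _ _
    have h2 : 0 ≤ max (-(d' q)) 0 := le_max_right _ _
    nlinarith
  have hsq : s q = max (-(d q)) 0 + max (-(d' q)) 0 := rfl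
  have hlq : 0 < r * l q := mul_pos hr0 (hl0 q)
  have e1 : dt (a q) (toR u) = d q := rfl
  have e2 : dt (a q) (toR u' + t • toR u) = d' q := rfl
  rw [e1, e2] at hq
  linarith

end Pool.Agent.Helper92.TET
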